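import Pool.Agent.helper91.RB.Spec4

/-!
# Project rb (MP_24e2e7_nt): row CY2

Norms and integrality at 2 in the ring generated by a root of unity of order `2 ^ a`.
-/

set_option autoImplicit false

namespace Pool.Agent.RB

open Polynomial Finset

/-- the odd exponents below `2 ^ a` -/
def CY2_J (a : ℕ) : Finset ℕ := (range (2 ^ a)).filter (fun j => Odd j)

theorem CY2_sq {x : ℂ} (h : x ^ 2 = 1) : x = 1 ∨ x = -1 := by
  have h1 : (x - 1) * (x + 1) = 0 := by linear_combination h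
  rcases mul_eq_zero.1 h1 with h2 | h2
  · exact Or.inl (sub_eq_zero.1 h2)
  · exact Or.inr (eq_neg_of_add_eq_zero_left h2)

theorem CY2_half {a : ℕ} {ζ : ℂ} (ha : 1 ≤ a) (hζ : IsPrimitiveRoot ζ (2 ^ a)) :
    ζ ^ 2 ^ (a - 1) = -1 := by
  have h1 : (ζ ^ 2 ^ (a - 1)) ^ 2 = 1 := by
    rw [← pow_mul, ← pow_succ, Nat.sub_add_cancel ha]
    exact hζ.pow_eq_one
  have h2 : ζ ^ 2 ^ (a - 1) ≠ 1 := by
    refine hζ.pow_ne_one_of_pos_of_lt (pow_ne_zero _ two_ne_zero) ?_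
    exact Nat.pow_lt_pow_right (by norm_num) (by omega)
  rcases (CY2_sq h1) with h | h
  · exact absurd h h2
  · exact h

theorem CY2_half_odd {a : ℕ} {ζ : ℂ} (ha : 1 ≤ a) (hζ : IsPrimitiveRoot ζ (2 ^ a)) {j : ℕ}
    (hj : Odd j) : (ζ ^ j) ^ 2 ^ (a - 1) = -1 := by
  rw [← pow_mul, mul_comm, pow_mul, CY2_half ha hζ, hj.neg_one_pow]

/-- `2 = (1 - ζ^j) S(ζ^j)` -/
theorem CY2_two {a : ℕ} {ζ : ℂ} (ha : 1 ≤ a) (hζ : IsPrimitiveRoot ζ (2 ^ a)) {j : ℕ}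
    (hj : Odd j) :
    (2 : ℂ) = (1 - ζ ^ j) * aeval (ζ ^ j) (∑ i ∈ range (2 ^ (a - 1)), (X : ℤ[X]) ^ i) := by
  have h1 := CY2_half_odd ha hζ hj
  have h2 := mul_neg_geom_sum (ζ ^ j) (2 ^ (a - 1))
  rw [h1] at h2
  simp only [map_sum, map_pow, aeval_X]
  rw [h2]
  norm_num

theorem CY2_ne {a : ℕ} {ζ : ℂ} (ha : 1 ≤ a) (hζ : IsPrimitiveRoot ζ (2 ^ a)) {j : ℕ}
    (hj : Odd j) : (1 - ζ ^ j) ≠ 0 := by
  intro h
  have := CY2_two ha hζ hj
  rw [h, zero_mul] at this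
  norm_num at this

theorem CY2_int {a : ℕ} {ζ : ℂ} (hζ : IsPrimitiveRoot ζ (2 ^ a)) : IsIntegral ℤ ζ :=
  hζ.isIntegral (pow_pos (by norm_num) _)

theorem CY2_aeval_int {x : ℂ} (hx : IsIntegral ℤ x) (Q : ℤ[X]) : IsIntegral ℤ (aeval x Q) := by
  rw [aeval_eq_sum_range]
  refine IsIntegral.sum _ fun i _ => ?_
  exact (hx.pow i).smul _

/-- `(1 - ζ) / (1 - ζ^j)` is integral -/
theorem CY2_quot {a : ℕ} {ζ : ℂ} (ha : 1 ≤ a) (hζ : IsPrimitiveRoot ζ (2 ^ a)) {j : ℕ}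
    (hj : Odd j) : IsIntegral ℤ ((1 - ζ) / (1 - ζ ^ j)) := by
  have : NeZero (2 ^ a) := ⟨pow_ne_zero _ two_ne_zero⟩
  have hc : j.Coprime (2 ^ a) := Nat.Coprime.pow_right a (Nat.coprime_two_right.2 hj)
  have hw : IsPrimitiveRoot (ζ ^ j) (2 ^ a) := hζ.pow_of_coprime j hc
  obtain ⟨i, _, hi⟩ := hw.eq_pow_of_pow_eq_one hζ.pow_eq_one
  have h1 := mul_neg_geom_sum (ζ ^ j) i
  rw [hi] at h1
  rw [← h1, mul_div_cancel_left₀ _ (CY2_ne ha hζ hj)]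
  exact IsIntegral.sum _ fun k _ => ((CY2_int hζ).pow j).pow k

theorem CY2_mem {a j : ℕ} : j ∈ CY2_J a ↔ j < 2 ^ a ∧ Odd j := by
  unfold CY2_J
  rw [mem_filter, mem_range]

/-- `∏ (1 - ζ^j) = 2` -/
theorem CY2_prod {a : ℕ} {ζ : ℂ} (ha : 1 ≤ a) (hζ : IsPrimitiveRoot ζ (2 ^ a)) :
    ∏ j ∈ CY2_J a, (1 - ζ ^ j) = 2 := by
  have : NeZero (2 ^ a) := ⟨pow_ne_zero _ two_ne_zero⟩
  have : Fact (Nat.Prime 2) := ⟨Nat.prime_two⟩
  have h1 : eval 1 (cyclotomic (2 ^ (a - 1 + 1)) ℂ) = ((2 : ℕ) : ℂ) :=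
    eval_one_cyclotomic_prime_pow (a - 1)
  rw [Nat.sub_add_cancel ha, cyclotomic_eq_prod_X_sub_primitiveRoots hζ, eval_prod] at h1
  have h2 : primitiveRoots (2 ^ a) ℂ = (CY2_J a).image (fun j => ζ ^ j) := by
    ext ξ
    rw [mem_primitiveRoots (pow_pos (by norm_num) _), hζ.isPrimitiveRoot_iff, mem_image]
    constructor
    · rintro ⟨i, hi, hc, rfl⟩
      refine ⟨i, CY2_mem.2 ⟨hi, ?_⟩, rfl⟩
      exact Nat.coprime_two_right.1 (Nat.Coprime.coprime_dvd_right (dvd_pow_self 2 (by omega)) hc)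
    · rintro ⟨i, hi, rfl⟩
      obtain ⟨h3, h4⟩ := CY2_mem.1 hi
      exact ⟨i, h3, Nat.Coprime.pow_right a (Nat.coprime_two_right.2 h4), rfl⟩
  rw [h2, prod_image] at h1
  · simp only [eval_sub, eval_X, eval_C] at h1
    rw [h1]
    norm_num
  · intro i hi j hj hij
    exact hζ.pow_inj (CY2_mem.1 hi).1 (CY2_mem.1 hj).1 hij

theorem CY2_not_half : ¬ IsIntegral ℤ ((1 : ℂ) / 2) := by
  intro h
  have h1 : IsIntegral ℤ ((1 : ℚ) / 2) := by
    have h2 : algebraMap ℚ ℂ ((1 : ℚ) / 2) = (1 : ℂ) / 2 := by simp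
    rw [← h2] at h
    exact (isIntegral_algebraMap_iff (algebraMap ℚ ℂ).injective).1 h
  obtain ⟨z, hz⟩ := IsIntegrallyClosed.isIntegral_iff.1 h1
  have h3 : (z : ℚ) = 1 / 2 := hz
  have h4 : (2 * z : ℚ) = 1 := by rw [h3]; norm_num
  have h5 : (2 * z : ℤ) = 1 := by exact_mod_cast h4
  omega

/-- the norm as a polynomial -/
noncomputable def CY2_N (a : ℕ) (ζ : ℂ) (Q : ℤ[X]) : ℂ := ∏ j ∈ CY2_J a, aeval (ζ ^ j) Q

theorem CY2_unit {a : ℕ} {ζ : ℂ} (ha : 1 ≤ a) (hζ : IsPrimitiveRoot ζ (2 ^ a)) :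
    ¬ IsIntegral ℤ (1 / (1 - ζ)) := by
  intro h
  apply CY2_not_half
  rw [← CY2_prod ha hζ, one_div, ← prod_inv_distrib]
  refine IsIntegral.prod _ fun j hj => ?_
  have h0 : (1 - ζ) ≠ 0 := by
    have := CY2_ne ha hζ odd_one
    rwa [pow_one] at this
  have h1 : (1 - ζ ^ j)⁻¹ = ((1 - ζ) / (1 - ζ ^ j)) * (1 / (1 - ζ)) := by
    field_simp
  rw [h1]
  exact (CY2_quot ha hζ (CY2_mem.1 hj).2).mul h

theorem CY2_step {a : ℕ} {ζ : ℂ} (ha : 1 ≤ a) (hζ : IsPrimitiveRoot ζ (2 ^ a)) (R : ℤ[X])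
    (hR : IsIntegral ℤ (CY2_N a ζ R / 2)) :
    ∃ R' : ℤ[X], ∀ j ∈ CY2_J a, aeval (ζ ^ j) R = (1 - ζ ^ j) * aeval (ζ ^ j) R' := by
  set S : ℤ[X] := ∑ i ∈ range (2 ^ (a - 1)), (X : ℤ[X]) ^ i with hS
  rcases Int.even_or_odd (R.eval 1) with he | ho
  · obtain ⟨m, hm⟩ := he
    obtain ⟨T, hT⟩ : (X - C 1 : ℤ[X]) ∣ R - C (R.eval 1) := X_sub_C_dvd_sub_C_eval
    refine ⟨C m * S - T, fun j hj => ?_⟩
    have h1 := CY2_two ha hζ (CY2_mem.1 hj).2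
    have h2 : R = C (R.eval 1) + (X - C 1) * T := by rw [← hT]; ring
    rw [← hS] at h1
    have h3 : aeval (ζ ^ j) R = ((R.eval 1 : ℤ) : ℂ) + (ζ ^ j - 1) * aeval (ζ ^ j) T := by
      conv_lhs => rw [h2]
      simp
    have h4 : ((R.eval 1 : ℤ) : ℂ) = (m : ℂ) * 2 := by
      rw [hm]
      push_cast
      ring
    rw [h3, h4, h1]
    simp only [map_sub, map_mul, aeval_C]
    simp only [algebraMap_int_eq, eq_intCast]
    ring
  · exfalso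
    apply CY2_unit ha hζ
    set M : ℤ[X] := ∏ j ∈ CY2_J a, R.comp (X ^ j) with hM
    have hM1 : aeval ζ M = CY2_N a ζ R := by
      rw [hM, map_prod]
      refine prod_congr rfl fun j _ => ?_
      rw [aeval_comp]
      simp
    have hM2 : M.eval 1 = (R.eval 1) ^ (CY2_J a).card := by
      rw [hM, eval_prod, ← prod_const]
      refine prod_congr rfl fun j _ => ?_
      rw [eval_comp]
      simp
    obtain ⟨T, hT⟩ : (X - C 1 : ℤ[X]) ∣ M - C (M.eval 1) := X_sub_C_dvd_sub_C_eval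
    have hodd : Odd (M.eval 1) := by
      rw [hM2]
      exact ho.pow
    obtain ⟨u, hu⟩ := hodd
    have h2 : M = C (M.eval 1) + (X - C 1) * T := by rw [← hT]; ring
    have h3 : aeval ζ M = ((M.eval 1 : ℤ) : ℂ) + (ζ - 1) * aeval ζ T := by
      conv_lhs => rw [h2]
      simp
    have h4 : ((M.eval 1 : ℤ) : ℂ) = 2 * (u : ℂ) + 1 := by
      rw [hu]
      push_cast
      ring
    have h5 := CY2_two ha hζ odd_one
    rw [pow_one, ← hS] at h5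
    have h0 : (1 - ζ) ≠ 0 := by
      have := CY2_ne ha hζ odd_one
      rwa [pow_one] at this
    set ν := CY2_N a ζ R / 2 with hν
    have h6 : CY2_N a ζ R = 2 * ν := by rw [hν]; ring
    have h7 : 1 / (1 - ζ) = aeval ζ S * ν + aeval ζ T - (u : ℂ) * aeval ζ S := by
      rw [div_eq_iff h0]
      have h8 : (2 : ℂ) * ν = 2 * (u : ℂ) + 1 + (ζ - 1) * aeval ζ T := by
        rw [← h6, ← hM1, h3, h4]
      have h9 : (1 : ℂ) = 2 * ν - 2 * (u : ℂ) - (ζ - 1) * aeval ζ T := by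
        rw [h8]
        ring
      calc (1 : ℂ) = 2 * ν - 2 * (u : ℂ) - (ζ - 1) * aeval ζ T := h9
        _ = ((1 - ζ) * aeval ζ S) * ν - ((1 - ζ) * aeval ζ S) * (u : ℂ) -
            (ζ - 1) * aeval ζ T := by rw [← h5]
        _ = _ := by ring
    rw [h7]
    have i1 := CY2_aeval_int (CY2_int hζ) S
    have i2 := CY2_aeval_int (CY2_int hζ) T
    have i3 : IsIntegral ℤ (u : ℂ) := by
      have : ((algebraMap ℤ ℂ) u) = (u : ℂ) := by simp
      rw [← this]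
      exact isIntegral_algebraMap
    exact ((i1.mul hR).add i2).sub (i3.mul i1)

theorem CY2_main {a : ℕ} {ζ : ℂ} (ha : 1 ≤ a) (hζ : IsPrimitiveRoot ζ (2 ^ a)) :
    ∀ (k : ℕ) (Q : ℤ[X]), IsIntegral ℤ (CY2_N a ζ Q / 2 ^ k) →
      ∃ R : ℤ[X], ∀ j ∈ CY2_J a, aeval (ζ ^ j) Q = (1 - ζ ^ j) ^ k * aeval (ζ ^ j) R := by
  intro k
  induction k with
  | zero =>
    intro Q _
    exact ⟨Q, fun j _ => by rw [pow_zero, one_mul]⟩
  | succ k ih =>
    intro Q hQ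
    have i2 : IsIntegral ℤ (2 : ℂ) := by
      have : ((algebraMap ℤ ℂ) 2) = (2 : ℂ) := by simp
      rw [← this]
      exact isIntegral_algebraMap
    have h1 : IsIntegral ℤ (CY2_N a ζ Q / 2 ^ k) := by
      have : CY2_N a ζ Q / 2 ^ k = CY2_N a ζ Q / 2 ^ (k + 1) * 2 := by
        rw [pow_succ]
        field_simp
      rw [this]
      exact hQ.mul i2
    obtain ⟨R, hR⟩ := ih Q h1
    have h2 : CY2_N a ζ Q = 2 ^ k * CY2_N a ζ R := by
      unfold CY2_N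
      rw [prod_congr rfl hR, prod_mul_distrib, prod_pow, CY2_prod ha hζ]
    have h3 : CY2_N a ζ Q / 2 ^ (k + 1) = CY2_N a ζ R / 2 := by
      rw [h2, pow_succ]
      field_simp
    rw [h3] at hQ
    obtain ⟨R', hR'⟩ := CY2_step ha hζ R hQ
    refine ⟨R', fun j hj => ?_⟩
    rw [hR j hj, hR' j hj, pow_succ]
    ring

theorem CY2 : CY2_stmt := by
  intro a ζ ha hζ p z hz
  have hz' : ∏ j ∈ CY2_J a, aeval (ζ ^ j) p = (z : ℂ) := hz
  obtain ⟨b, hbM, hb⟩ := IsLocalization.integerNormalization_spec (nonZeroDivisors ℤ) p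
  set P := IsLocalization.integerNormalization (nonZeroDivisors ℤ) p with hP
  have hb0 : (b : ℤ) ≠ 0 := nonZeroDivisors.ne_zero hbM
  have hPe : ∀ x : ℂ, aeval x P = ((b : ℤ) : ℂ) * aeval x p := by
    intro x
    have h1 : aeval x (P.map (algebraMap ℤ ℚ)) = aeval x P := by
      rw [aeval_map_algebraMap]
    rw [← h1, hb]
    have h2 : (b • p : ℚ[X]) = C ((b : ℤ) : ℚ) * p := by
      rw [← Polynomial.smul_eq_C_mul]
      ext i
      simp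
    rw [h2, map_mul, aeval_C]
    simp
  obtain ⟨l, d, hd, hbd⟩ := Nat.exists_eq_two_pow_mul_odd (Int.natAbs_ne_zero.2 hb0)
  refine ⟨d, hd, ?_⟩
  -- sign
  obtain ⟨s, hs, hs2⟩ : ∃ s : ℤ, s * s = 1 ∧ (b : ℤ) = s * ((b : ℤ).natAbs : ℤ) := by
    rcases le_total 0 (b : ℤ) with h | h
    · exact ⟨1, by norm_num, by rw [one_mul, Int.natAbs_of_nonneg h]⟩
    · refine ⟨-1, by norm_num, ?_⟩
      have := Int.ofNat_natAbs_of_nonpos h
      rw [this]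
      ring
  have hs3 : (s : ℂ) * (s : ℂ) = 1 := by exact_mod_cast hs
  have hbC : ((b : ℤ) : ℂ) = (s : ℂ) * (2 ^ l * (d : ℂ)) := by
    rw [hs2, hbd]
    push_cast
    ring
  set n := (CY2_J a).card with hn
  have hN : CY2_N a ζ P = (((b : ℤ) : ℂ)) ^ n * (z : ℂ) := by
    unfold CY2_N
    rw [← hz', ← prod_const, ← prod_mul_distrib]
    exact prod_congr rfl fun j _ => hPe _
  have hint : IsIntegral ℤ (CY2_N a ζ P / 2 ^ (l * n)) := by
    have h1 : CY2_N a ζ P / 2 ^ (l * n) = (((s * d) ^ n * z : ℤ) : ℂ) := by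
      rw [hN, hbC, mul_pow, mul_pow, ← pow_mul]
      push_cast
      rw [mul_pow]
      field_simp
    rw [h1]
    have : ((algebraMap ℤ ℂ) ((s * d) ^ n * z)) = (((s * d) ^ n * z : ℤ) : ℂ) := by simp
    rw [← this]
    exact isIntegral_algebraMap
  obtain ⟨R, hR⟩ := CY2_main ha hζ (l * n) P hint
  have h1J : 1 ∈ CY2_J a := by
    rw [CY2_mem]
    exact ⟨Nat.one_lt_pow (by omega) (by norm_num), odd_one⟩
  have hR1 := hR 1 h1J
  rw [pow_one] at hR1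
  -- `(1 - ζ)^n / 2` is integral
  have hpi : IsIntegral ℤ ((1 - ζ) ^ n / 2) := by
    have h1 : (1 - ζ) ^ n / 2 = ∏ j ∈ CY2_J a, ((1 - ζ) / (1 - ζ ^ j)) := by
      rw [prod_div_distrib, prod_const, CY2_prod ha hζ]
    rw [h1]
    exact IsIntegral.prod _ fun j hj => CY2_quot ha hζ (CY2_mem.1 hj).2
  have hfin : (d : ℂ) * aeval ζ p = (s : ℂ) * (((1 - ζ) ^ n / 2) ^ l * aeval ζ R) := by
    have h1 : aeval ζ P = (s : ℂ) * (2 ^ l * (d : ℂ)) * aeval ζ p := by rw [hPe, hbC]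
    have h2 : (2 : ℂ) ^ l ≠ 0 := pow_ne_zero _ two_ne_zero
    have h3 : (d : ℂ) * aeval ζ p = (s : ℂ) * aeval ζ P / 2 ^ l := by
      rw [h1]
      field_simp
      rw [show (s : ℂ) ^ 2 = 1 by rw [sq]; exact hs3]
      ring
    rw [h3, hR1, div_pow, ← pow_mul, mul_comm n l]
    ring
  rw [hfin]
  have i3 : IsIntegral ℤ (s : ℂ) := by
    have : ((algebraMap ℤ ℂ) s) = (s : ℂ) := by simp
    rw [← this]
    exact isIntegral_algebraMap
  exact i3.mul ((hpi.pow l).mul (CY2_aeval_int (CY2_int hζ) R))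

end Pool.Agent.RB
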